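import Mathlib

set_option autoImplicit false

namespace Pool.Agent.Results.MP_75d27e_nt.NotInjective

/-- `IsProdSeq m n s l` : the list `l` is an `m`-product sequence (a finite non-decreasing
sequence of natural numbers whose product is an `m`-th power and in which no integer occurs more
than `m - 1` times) whose first term is `n` and whose last term is `s`. -/
def IsProdSeq (m n s : ℕ) (l : List ℕ) : Prop :=
  l.Pairwise (· ≤ ·) ∧ (∃ R : ℕ, l.prod = R ^ m) ∧ (∀ a : ℕ, l.count a ≤ m - 1) ∧
    l.head? = some n ∧ l.getLast? = some s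

/-- `g m n` is the least `s` such that some `m`-product sequence starts with `n` and ends
with `s`. -/
noncomputable def g (m n : ℕ) : ℕ := sInf {s : ℕ | ∃ l : List ℕ, IsProdSeq m n s l}

lemma head_of_min {l : List ℕ} (hl : l.Pairwise (· ≤ ·)) {n : ℕ} (hn : n ∈ l)
    (hmin : ∀ x ∈ l, n ≤ x) : l.head? = some n := by
  cases l with
  | nil => simp at hn
  | cons a t =>
    have h1 : n ≤ a := hmin a (by simp)
    have h2 : a ≤ n := by
      rcases List.mem_cons.1 hn with h | h
      · exact h.ge
      · exact (List.pairwise_cons.1 hl).1 n h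
    simp [le_antisymm h2 h1]

lemma last_of_max {l : List ℕ} (hl : l.Pairwise (· ≤ ·)) {s : ℕ} (hs : s ∈ l)
    (hmax : ∀ x ∈ l, x ≤ s) : l.getLast? = some s := by
  have hne : l ≠ [] := by rintro rfl; simp at hs
  rw [List.getLast?_eq_getLast_of_ne_nil hne]
  congr 1
  have h1 : l.getLast hne ≤ s := hmax _ (List.getLast_mem hne)
  have h2 : s ≤ l.getLast hne := by
    have := List.dropLast_append_getLast hne
    rw [← this] at hs hl
    rcases List.mem_append.1 hs with h | h
    · exact (List.pairwise_append.1 hl).2.2 s h _ (by simp)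
    · simp at h; omega
  omega

lemma isPow_of_dvd_factorization {m X : ℕ} (hX : X ≠ 0)
    (h : ∀ q : ℕ, m ∣ X.factorization q) : ∃ R : ℕ, X = R ^ m := by
  refine ⟨X.factorization.prod (fun q e => q ^ (e / m)), ?_⟩
  conv_lhs => rw [← Nat.prod_factorization_pow_eq_self hX]
  unfold Finsupp.prod
  rw [← Finset.prod_pow]
  refine Finset.prod_congr rfl fun q _ => ?_
  rw [← pow_mul, Nat.div_mul_cancel (h q)]

/-- A relation modulo `m` between exponent vectors gives an `m`-product sequence. -/
lemma exists_seq_of_relation {m : ℕ} {F : Finset ℕ} (hF : F.Nonempty)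
    (hpos : ∀ i ∈ F, i ≠ 0) (c : ℕ → ℕ) (hc : ∀ i ∈ F, 1 ≤ c i ∧ c i ≤ m - 1)
    (hrel : ∀ q : ℕ, q.Prime → m ∣ ∑ i ∈ F, c i * i.factorization q) :
    ∃ l : List ℕ, IsProdSeq m (F.min' hF) (F.max' hF) l := by
  classical
  set M : Multiset ℕ := ∑ i ∈ F, c i • ({i} : Multiset ℕ) with hM
  have hcount : ∀ a, M.count a = if a ∈ F then c a else 0 := by
    intro a
    rw [hM, Multiset.count_sum']
    simp only [Multiset.count_nsmul, Multiset.count_singleton]
    rw [Finset.sum_congr rfl (fun x _ => by rw [mul_ite, mul_one, mul_zero])]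
    simp
  have hmem : ∀ a, a ∈ M ↔ a ∈ F := by
    intro a
    rw [← Multiset.one_le_count_iff_mem, hcount]
    constructor
    · intro h
      by_contra h'
      simp [h'] at h
    · intro h
      simp only [h, if_true]
      exact (hc a h).1
  have hprod : M.prod = ∏ i ∈ F, i ^ c i := by
    rw [hM, Multiset.prod_sum]
    refine Finset.prod_congr rfl fun i _ => ?_
    rw [Multiset.prod_nsmul, Multiset.prod_singleton]
  refine ⟨M.sort (· ≤ ·), ?_, ?_, ?_, ?_, ?_⟩
  · exact Multiset.pairwise_sort M (· ≤ ·)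
  · have hne : M.prod ≠ 0 := by
      rw [hprod]
      exact Finset.prod_ne_zero_iff.2 fun i hi => pow_ne_zero _ (hpos i hi)
    have hfac : ∀ q : ℕ, m ∣ M.prod.factorization q := by
      intro q
      by_cases hq : q.Prime
      · rw [hprod, Nat.factorization_prod (fun i hi => pow_ne_zero _ (hpos i hi))]
        rw [Finsupp.finsetSum_apply]
        have : ∑ k ∈ F, (k ^ c k).factorization q = ∑ i ∈ F, c i * i.factorization q := by
          refine Finset.sum_congr rfl fun i _ => ?_
          rw [Nat.factorization_pow]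
          simp
        rw [this]
        exact hrel q hq
      · rw [Nat.factorization_eq_zero_of_not_prime _ hq]
        exact dvd_zero _
    obtain ⟨R, hR⟩ := isPow_of_dvd_factorization hne hfac
    refine ⟨R, ?_⟩
    rw [← hR]
    conv_rhs => rw [← Multiset.sort_eq M (· ≤ ·)]
    rw [Multiset.prod_coe]
  · intro a
    rw [← Multiset.coe_count, Multiset.sort_eq, hcount]
    split_ifs with h
    · exact (hc a h).2
    · omega
  · apply head_of_min (Multiset.pairwise_sort M (· ≤ ·))
    · rw [Multiset.mem_sort, hmem]; exact F.min'_mem hF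
    · intro x hx
      rw [Multiset.mem_sort, hmem] at hx
      exact F.min'_le x hx
  · apply last_of_max (Multiset.pairwise_sort M (· ≤ ·))
    · rw [Multiset.mem_sort, hmem]; exact F.max'_mem hF
    · intro x hx
      rw [Multiset.mem_sort, hmem] at hx
      exact F.le_max' x hx

/-- A nontrivial linear relation over `ZMod m` between exponent vectors of the integers in
`[2, N]` gives an `m`-product sequence from the least to the greatest integer involved. -/
lemma exists_seq_of_zmod {m N : ℕ} (hm : 2 ≤ m) (c : ℕ → ZMod m) (F : Finset ℕ)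
    (hF : F.Nonempty) (hFN : ∀ i ∈ F, 2 ≤ i ∧ i ≤ N) (hc : ∀ i ∈ F, c i ≠ 0)
    (hrel : ∀ q : ℕ, q.Prime → q ≤ N → ∑ i ∈ F, c i * (i.factorization q : ZMod m) = 0) :
    ∃ l : List ℕ, IsProdSeq m (F.min' hF) (F.max' hF) l := by
  have : NeZero m := ⟨by omega⟩
  apply exists_seq_of_relation hF (fun i hi => by have := hFN i hi; omega) (fun i => (c i).val)
  · intro i hi
    constructor
    · exact Nat.one_le_iff_ne_zero.2 (by rw [Ne, ZMod.val_eq_zero]; exact hc i hi)
    · have := ZMod.val_lt (c i); omega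
  · intro q hq
    by_cases hqN : q ≤ N
    · have h := hrel q hq hqN
      rw [← ZMod.natCast_eq_zero_iff]
      push_cast
      rw [← h]
      refine Finset.sum_congr rfl fun i _ => ?_
      rw [ZMod.natCast_zmod_val]
    · rw [Finset.sum_eq_zero]
      · exact dvd_zero _
      · intro i hi
        have := hFN i hi
        rw [Nat.factorization_eq_zero_of_lt (by omega)]
        simp

/-- The integers `n` in `[2, N]` from which no `m`-product sequence ends at or below `N`. -/
noncomputable def late (m N : ℕ) : Finset ℕ := by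
  classical
  exact (Finset.Icc 2 N).filter (fun n => ¬ ∃ s, s ≤ N ∧ ∃ l : List ℕ, IsProdSeq m n s l)

lemma mem_late {m N n : ℕ} : n ∈ late m N ↔
    (2 ≤ n ∧ n ≤ N) ∧ ¬ ∃ s, s ≤ N ∧ ∃ l : List ℕ, IsProdSeq m n s l := by
  classical
  unfold late
  rw [Finset.mem_filter, Finset.mem_Icc]

/-- The primes up to `N`. -/
def primesTo (N : ℕ) : Finset ℕ := (Finset.Icc 2 N).filter Nat.Prime

/-- The exponent-vector map on coefficient vectors supported on a finite set. -/
noncomputable def expMap (m N : ℕ) (A : Finset ℕ) (c : A → ZMod m) : (primesTo N → ZMod m) :=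
  fun q => ∑ i : A, c i * ((i : ℕ).factorization (q : ℕ) : ZMod m)

lemma late_of_relation {m N : ℕ} (hm : 2 ≤ m) (c : ℕ → ZMod m) (F : Finset ℕ)
    (hF : F.Nonempty) (hFN : ∀ i ∈ F, 2 ≤ i ∧ i ≤ N) (hc : ∀ i ∈ F, c i ≠ 0)
    (hrel : ∀ q : ℕ, q.Prime → q ≤ N → ∑ i ∈ F, c i * (i.factorization q : ZMod m) = 0) :
    F.min' hF ∉ late m N := by
  intro h
  rw [mem_late] at h
  exact h.2 ⟨F.max' hF, (hFN _ (F.max'_mem hF)).2, exists_seq_of_zmod hm c F hF hFN hc hrel⟩

lemma expMap_injective {m N : ℕ} (hm : 2 ≤ m) {A : Finset ℕ} (hA : A = late m N) :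
    Function.Injective (expMap m N A) := by
  classical
  intro a b hab
  by_contra hne
  -- the difference, extended by zero
  let c : ℕ → ZMod m := fun i => if h : i ∈ A then a ⟨i, h⟩ - b ⟨i, h⟩ else 0
  set F : Finset ℕ := A.filter (fun i => c i ≠ 0) with hFdef
  have hF : F.Nonempty := by
    obtain ⟨i, hi⟩ := Function.ne_iff.1 hne
    refine ⟨i, ?_⟩
    rw [hFdef, Finset.mem_filter]
    refine ⟨i.2, ?_⟩
    have hci : c i = a i - b i := by simp [c]
    rw [hci]
    exact sub_ne_zero.2 hi
  have hFA : ∀ i ∈ F, i ∈ A := fun i hi => (Finset.mem_filter.1 hi).1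
  have key := late_of_relation (N := N) hm c F hF
    (fun i hi => (mem_late.1 (hA ▸ hFA i hi)).1)
    (fun i hi => (Finset.mem_filter.1 hi).2) ?_
  · exact key (hA ▸ hFA _ (F.min'_mem hF))
  · intro q hq hqN
    have hq' : q ∈ primesTo N := by
      unfold primesTo
      rw [Finset.mem_filter, Finset.mem_Icc]
      exact ⟨⟨hq.two_le, hqN⟩, hq⟩
    have h1 := congrFun hab ⟨q, hq'⟩
    unfold expMap at h1
    rw [← sub_eq_zero, ← Finset.sum_sub_distrib] at h1
    have h2 : ∑ i ∈ A, c i * (i.factorization q : ZMod m) = 0 := by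
      rw [← h1, ← Finset.sum_coe_sort A]
      refine Finset.sum_congr rfl fun i _ => ?_
      have hci : c i = a i - b i := by simp [c]
      rw [hci, sub_mul]
    rw [← h2, hFdef]
    rw [Finset.sum_filter]
    refine Finset.sum_congr rfl fun i _ => ?_
    by_cases hi : c i = 0
    · simp [hi]
    · simp [hi]

/-- For composite `m` and a prime `p` dividing `m`, the number of `n` in `[2, 2 ^ p]` with
`g m n > 2 ^ p` is less than the number of primes up to `2 ^ p`. -/
lemma card_late_lt {m p : ℕ} (hm : 2 ≤ m) (hc : ¬ m.Prime) (hp : p.Prime) (hpm : p ∣ m) :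
    (late m (2 ^ p)).card < (primesTo (2 ^ p)).card := by
  classical
  have : NeZero m := ⟨by omega⟩
  have : Fact (1 < m) := ⟨by omega⟩
  set N := 2 ^ p with hN
  set A := late m N with hA
  have hinj : Function.Injective (expMap m N A) := expMap_injective hm hA
  have hple : p < m := lt_of_le_of_ne (Nat.le_of_dvd (by omega) hpm) (by rintro rfl; exact hc hp)
  have h2N : 2 ≤ N := by
    rw [hN]
    calc 2 = 2 ^ 1 := by norm_num
      _ ≤ 2 ^ p := Nat.pow_le_pow_right (by norm_num) hp.one_lt.le
  have hcard : Fintype.card (A → ZMod m) ≤ Fintype.card (primesTo N → ZMod m) :=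
    Fintype.card_le_of_injective _ hinj
  have hle : A.card ≤ (primesTo N).card := by
    rw [Fintype.card_fun, Fintype.card_fun, ZMod.card, Fintype.card_coe, Fintype.card_coe] at hcard
    exact (Nat.pow_le_pow_iff_right (by omega)).1 hcard
  refine lt_of_le_of_ne hle fun heq => ?_
  have hsurj : Function.Surjective (expMap m N A) := by
    apply (Fintype.bijective_iff_injective_and_card _).2 ⟨hinj, _⟩ |>.2
    rw [Fintype.card_fun, Fintype.card_fun, ZMod.card, Fintype.card_coe, Fintype.card_coe, heq]
  have h2P : 2 ∈ primesTo N := by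
    unfold primesTo
    rw [Finset.mem_filter, Finset.mem_Icc]
    exact ⟨⟨le_refl _, h2N⟩, Nat.prime_two⟩
  obtain ⟨a, ha⟩ := hsurj (fun q => if (q : ℕ) = 2 then 1 else 0)
  -- the integer `N = 2 ^ p` is not late
  have hNA : N ∉ A := by
    rw [hA, mem_late]
    rintro ⟨_, h⟩
    apply h
    obtain ⟨k, hk⟩ := hpm
    have hk1 : 1 ≤ k := by
      rcases Nat.eq_zero_or_pos k with h0 | h0
      · subst h0; omega
      · exact h0
    have hkm : k ≤ m - 1 := by
      have : k < m := by
        rw [hk]
        have := hp.two_le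
        nlinarith
      omega
    refine ⟨N, le_refl _, List.replicate k N, ?_, ⟨2, ?_⟩, ?_, ?_, ?_⟩
    · exact List.pairwise_replicate.2 (Or.inr (le_refl _))
    · rw [List.prod_replicate, hN, ← pow_mul, ← hk]
    · intro b
      rw [List.count_replicate]
      split_ifs <;> omega
    · rw [List.head?_replicate]; simp; omega
    · rw [List.getLast?_replicate]; simp; omega
  -- the relation `v_N = p * e_2`
  let c : ℕ → ZMod m := fun i => if h : i ∈ A then - ((p : ZMod m) * a ⟨i, h⟩)
    else if i = N then 1 else 0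
  have hcA : ∀ i (h : i ∈ A), c i = - ((p : ZMod m) * a ⟨i, h⟩) := by
    intro i h; simp only [c, h, dif_pos]
  have hcN : c N = 1 := by simp only [c, hNA, dif_neg, not_false_eq_true, if_true]
  set F : Finset ℕ := (insert N A).filter (fun i => c i ≠ 0) with hFdef
  have hNF : N ∈ F := by
    rw [hFdef, Finset.mem_filter]
    exact ⟨Finset.mem_insert_self _ _, by rw [hcN]; exact one_ne_zero⟩
  have hF : F.Nonempty := ⟨N, hNF⟩
  have hFA : ∀ i ∈ F, i = N ∨ i ∈ A := fun i hi => by
    have := (Finset.mem_filter.1 hi).1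
    exact Finset.mem_insert.1 this
  have hFN : ∀ i ∈ F, 2 ≤ i ∧ i ≤ N := by
    intro i hi
    rcases hFA i hi with h | h
    · subst h; exact ⟨h2N, le_refl _⟩
    · exact (mem_late.1 (hA ▸ h)).1
  have hrel : ∀ q : ℕ, q.Prime → q ≤ N →
      ∑ i ∈ insert N A, c i * (i.factorization q : ZMod m) = 0 := by
    intro q hq hqN
    have hq' : q ∈ primesTo N := by
      unfold primesTo
      rw [Finset.mem_filter, Finset.mem_Icc]
      exact ⟨⟨hq.two_le, hqN⟩, hq⟩
    rw [Finset.sum_insert hNA, hcN, one_mul]
    have h1 := congrFun ha ⟨q, hq'⟩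
    unfold expMap at h1
    have h2 : ∑ i ∈ A, c i * (i.factorization q : ZMod m)
        = - ((p : ZMod m) * (if q = 2 then 1 else 0)) := by
      rw [← Finset.sum_coe_sort A, ← h1, Finset.mul_sum, ← Finset.sum_neg_distrib]
      refine Finset.sum_congr rfl fun i _ => ?_
      rw [hcA i i.2]
      ring
    rw [h2, hN, Nat.Prime.factorization_pow Nat.prime_two]
    by_cases hq2 : q = 2
    · subst hq2
      simp
    · simp [hq2]
  have hrel' : ∀ q : ℕ, q.Prime → q ≤ N →
      ∑ i ∈ F, c i * (i.factorization q : ZMod m) = 0 := by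
    intro q hq hqN
    rw [← hrel q hq hqN, hFdef, Finset.sum_filter]
    refine Finset.sum_congr rfl fun i _ => ?_
    by_cases hi : c i = 0
    · simp [hi]
    · simp [hi]
  have key := late_of_relation (N := N) hm c F hF hFN
    (fun i hi => (Finset.mem_filter.1 hi).2) hrel'
  have hmin : F.min' hF = N := by
    rcases hFA _ (F.min'_mem hF) with h | h
    · exact h
    · exact absurd h key
  -- so all coefficients on `A` vanish, whence `p = 0` in `ZMod m`
  have hall : ∀ i (h : i ∈ A), (p : ZMod m) * a ⟨i, h⟩ = 0 := by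
    intro i h
    by_contra hne
    have hiF : i ∈ F := by
      rw [hFdef, Finset.mem_filter]
      refine ⟨Finset.mem_insert_of_mem h, ?_⟩
      rw [hcA i h]
      exact neg_ne_zero.2 hne
    have h1 := F.min'_le i hiF
    have h2 := (hFN i hiF).2
    have : i = N := by omega
    exact hNA (this ▸ h)
  have h1 := congrFun ha ⟨2, h2P⟩
  unfold expMap at h1
  simp only [if_true] at h1
  have h2 : (p : ZMod m) = 0 := by
    have := congrArg (fun z => (p : ZMod m) * z) h1
    simp only [mul_one] at this
    rw [← this, Finset.mul_sum]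
    refine Finset.sum_eq_zero fun i _ => ?_
    rw [← mul_assoc, hall i i.2, zero_mul]
  rw [ZMod.natCast_eq_zero_iff] at h2
  exact absurd (Nat.le_of_dvd hp.pos h2) (by omega)

/-- There is at least one `m`-product sequence starting with `n`. -/
lemma nonempty {m : ℕ} (hm : 2 ≤ m) (n : ℕ) :
    {s : ℕ | ∃ l : List ℕ, IsProdSeq m n s l}.Nonempty := by
  rcases Nat.eq_zero_or_pos n with h0 | h0
  · subst h0
    refine ⟨0, [0], by simp, ⟨0, ?_⟩, ?_, by simp, by simp⟩
    · rw [zero_pow (by omega)]; simp
    · intro a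
      have := List.count_le_length (a := a) (l := [0])
      simp only [List.length_singleton] at this
      omega
  · have hlt : n < n * 2 ^ m := by
      have : 1 < 2 ^ m := Nat.one_lt_two_pow (by omega)
      nlinarith
    refine ⟨n * 2 ^ m, n :: List.replicate (m - 1) (n * 2 ^ m), ?_, ⟨n * 2 ^ (m - 1), ?_⟩, ?_, by simp, ?_⟩
    · rw [List.pairwise_cons]
      refine ⟨?_, List.pairwise_replicate.2 (Or.inr (le_refl _))⟩
      intro b hb
      rw [List.mem_replicate] at hb
      rw [hb.2]; exact hlt.le
    · rw [List.prod_cons, List.prod_replicate]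
      obtain ⟨k, rfl⟩ : ∃ k, m = k + 1 := ⟨m - 1, by omega⟩
      simp only [Nat.add_sub_cancel]
      ring
    · intro a
      rw [List.count_cons, List.count_replicate]
      by_cases h1 : a = n
      · subst h1
        have : (a * 2 ^ m == a) = false := by
          simp; omega
        rw [this]
        simp; omega
      · have : (n == a) = false := by simp; exact fun h => h1 h.symm
        rw [this]
        split_ifs <;> simp_all
    · have hm1 : m - 1 ≠ 0 := by omega
      rw [List.getLast?_cons, List.getLast?_replicate]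
      simp [hm1]

lemma g_spec {m : ℕ} (hm : 2 ≤ m) (n : ℕ) : ∃ l : List ℕ, IsProdSeq m n (g m n) l :=
  Nat.sInf_mem (nonempty hm n)

lemma mem_bounds {m n s : ℕ} {l : List ℕ} (h : IsProdSeq m n s l) :
    s ∈ l ∧ ∀ x ∈ l, n ≤ x ∧ x ≤ s := by
  obtain ⟨h1, _, _, h4, h5⟩ := h
  refine ⟨List.mem_of_getLast? h5, fun x hx => ⟨?_, ?_⟩⟩
  · obtain ⟨t, rfl⟩ := List.head?_eq_some_iff.1 h4
    rcases List.mem_cons.1 hx with h | h
    · exact h.ge
    · exact (List.pairwise_cons.1 h1).1 x h
  · obtain ⟨t, rfl⟩ := List.getLast?_eq_some_iff.1 h5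
    rcases List.mem_append.1 hx with h | h
    · exact (List.pairwise_append.1 h1).2.2 x h s (by simp)
    · simp at h; omega

lemma factorization_prod_eq_count {s : ℕ} (hs : s.Prime) :
    ∀ l : List ℕ, (∀ x ∈ l, x ≠ 0 ∧ x ≤ s) → l.prod ≠ 0 ∧ l.prod.factorization s = l.count s := by
  intro l
  induction l with
  | nil => intro _; simp
  | cons a t ih =>
    intro h
    obtain ⟨h1, h2⟩ := ih (fun x hx => h x (by simp [hx]))
    have ha := h a (by simp)
    refine ⟨by rw [List.prod_cons]; exact mul_ne_zero ha.1 h1, ?_⟩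
    rw [List.prod_cons, Nat.factorization_mul ha.1 h1, Finsupp.add_apply, h2, List.count_cons,
      add_comm]
    congr 1
    by_cases has : a = s
    · subst has
      simp [hs.factorization_self]
    · have : (a == s) = false := by simp [has]
      rw [this, Nat.factorization_eq_zero_of_lt (by omega)]
      simp

/-- The last term of an `m`-product sequence whose first term is at least two is not prime. -/
lemma not_prime_of_isProdSeq {m n s : ℕ} (hm : 2 ≤ m) (hn : 2 ≤ n) {l : List ℕ}
    (h : IsProdSeq m n s l) : ¬ s.Prime := by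
  intro hs
  have hb := mem_bounds h
  obtain ⟨_, ⟨R, hR⟩, h3, _, _⟩ := h
  obtain ⟨_, h6⟩ := factorization_prod_eq_count hs l
    (fun x hx => ⟨by have := (hb.2 x hx).1; omega, (hb.2 x hx).2⟩)
  rw [hR, Nat.factorization_pow] at h6
  simp only [Finsupp.smul_apply, smul_eq_mul] at h6
  have h7 : 1 ≤ l.count s := List.one_le_count_iff.2 hb.1
  have h8 := h3 s
  have h9 : m ∣ l.count s := ⟨_, h6.symm⟩
  have := Nat.le_of_dvd (by omega) h9
  omega

/-- For every composite `m` the map `g m` is not injective; more precisely, for every prime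
`p ∣ m` there is a collision `g m n = g m n' ≤ 2 ^ p` with `2 ≤ n < n'`. -/
theorem result (m : ℕ) (hm : 2 ≤ m) (hc : ¬ m.Prime) :
    ¬ Function.Injective (g m) ∧
    ∀ p : ℕ, p.Prime → p ∣ m → ∃ n n' : ℕ, 2 ≤ n ∧ n < n' ∧ g m n = g m n' ∧ g m n ≤ 2 ^ p := by
  have main : ∀ p : ℕ, p.Prime → p ∣ m →
      ∃ n n' : ℕ, 2 ≤ n ∧ n < n' ∧ g m n = g m n' ∧ g m n ≤ 2 ^ p := by
    intro p hp hpm
    classical
    have hlt := card_late_lt hm hc hp hpm
    set N := 2 ^ p with hN
    set B := (Finset.Icc 2 N) \ late m N with hB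
    set C := (Finset.Icc 2 N).filter (fun n => ¬ n.Prime) with hC
    have hsub : late m N ⊆ Finset.Icc 2 N := fun n hn => by
      rw [Finset.mem_Icc]; exact (mem_late.1 hn).1
    have hBcard : B.card = (Finset.Icc 2 N).card - (late m N).card :=
      Finset.card_sdiff_of_subset hsub
    have hCcard : (primesTo N).card + C.card = (Finset.Icc 2 N).card :=
      Finset.card_filter_add_card_filter_not (s := Finset.Icc 2 N) Nat.Prime
    have hle := Finset.card_le_card hsub
    have hCB : C.card < B.card := by omega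
    have hmaps : ∀ n ∈ B, g m n ∈ C := by
      intro n hn
      rw [hB, Finset.mem_sdiff, Finset.mem_Icc, mem_late] at hn
      obtain ⟨⟨h1, h2⟩, h3⟩ := hn
      have h4 : ∃ s, s ≤ N ∧ ∃ l : List ℕ, IsProdSeq m n s l := by
        by_contra h
        exact h3 ⟨⟨h1, h2⟩, h⟩
      obtain ⟨s, hs, hl⟩ := h4
      have h5 : g m n ≤ s := Nat.sInf_le hl
      obtain ⟨l, hl⟩ := g_spec hm n
      have h6 := mem_bounds hl
      rw [hC, Finset.mem_filter, Finset.mem_Icc]
      exact ⟨⟨by have := (h6.2 _ h6.1).1; omega, by omega⟩, not_prime_of_isProdSeq hm h1 hl⟩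
    obtain ⟨x, hx, y, hy, hxy, hg⟩ := Finset.exists_ne_map_eq_of_card_lt_of_maps_to hCB hmaps
    have hx2 : 2 ≤ x := by
      rw [hB, Finset.mem_sdiff, Finset.mem_Icc] at hx; exact hx.1.1
    have hy2 : 2 ≤ y := by
      rw [hB, Finset.mem_sdiff, Finset.mem_Icc] at hy; exact hy.1.1
    have hxN : g m x ≤ N := by
      have := hmaps x hx
      rw [hC, Finset.mem_filter, Finset.mem_Icc] at this
      exact this.1.2
    rcases lt_or_gt_of_ne hxy with h | h
    · exact ⟨x, y, hx2, h, hg, hxN⟩
    · exact ⟨y, x, hy2, h, hg.symm, hg ▸ hxN⟩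
  refine ⟨fun hinj => ?_, main⟩
  obtain ⟨n, n', _, hlt, heq, _⟩ := main m.minFac (Nat.minFac_prime (by omega)) (Nat.minFac_dvd m)
  exact absurd (hinj heq) (by omega)

end Pool.Agent.Results.MP_75d27e_nt.NotInjective
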